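import Pool.Agent.Helper23_LAP.Stmts

/-!
# LAP (helper23), module ALQ
-/

set_option autoImplicit false

namespace Pool.Agent.LAP.H48

open Pool.Agent.LAP

open scoped Classical

theorem alq (hFAR : FARStmt) : ALQStmt := by
  intro α β _ _ E R X Y L D η r hL hR hlink
  have main : ∀ n : ℕ, ∀ Q : Finset (α ⊕ β), Q.card ≤ n → HQ E R X Y L D η r Q := by
    intro n
    induction n with
    | zero =>
      intro Q hQ
      have hQ0 : Q = ∅ := Finset.card_eq_zero.1 (Nat.le_zero.1 hQ)
      subst hQ0
      have hL2 : ¬ (L ^ 2 ≤ 0) := by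
        have : 0 < L ^ 2 := by positivity
        omega
      have hA : clA E (L ^ 2) (∅ : Finset (α ⊕ β)) = ∅ := by
        ext x
        simp only [clA, clO, rp, Finset.mem_filter, Finset.mem_univ, true_and, Finset.notMem_empty,
          Finset.filter_false, Finset.inter_empty, Finset.card_empty, iff_false]
        exact hL2
      have hB : clB E (L ^ 2) (∅ : Finset (α ⊕ β)) = ∅ := by
        ext x
        simp only [clB, clI, lp, Finset.mem_filter, Finset.mem_univ, true_and, Finset.notMem_empty,
          Finset.filter_false, Finset.inter_empty, Finset.card_empty, iff_false]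
        exact hL2
      unfold HQ cq
      rw [hA, hB]
      have h1 : ain R X Y ∅ ∅ = ∅ := by
        ext a; simp [ain]
      have h2 : aou R X Y ∅ ∅ = ∅ := by
        ext a; simp [aou]
      simp [dsc, crs, h1, h2]
    | succ n ih =>
      intro Q hQ
      by_cases hl : Lnk (sadj E) Q
      · exact hlink Q hl
      · by_cases hne : Q.Nonempty
        · have h1 : ∃ u ∈ Q, ∃ v ∈ Q,
              ¬ Relation.ReflTransGen (fun a b => b ∈ Q ∧ nr3 (sadj E) a b) u v := by
            by_contra hcon
            push Not at hcon
            exact hl ⟨hne, hcon⟩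
          obtain ⟨u, hu, v, hv, huv⟩ := h1
          set Q1 := Q.filter fun w =>
            Relation.ReflTransGen (fun a b => b ∈ Q ∧ nr3 (sadj E) a b) u w with hQ1
          set Q2 := Q.filter fun w =>
            ¬ Relation.ReflTransGen (fun a b => b ∈ Q ∧ nr3 (sadj E) a b) u w with hQ2
          have hU : Q1 ∪ Q2 = Q := Finset.filter_union_filter_not_eq _ _
          have hd : Disjoint Q1 Q2 := Finset.disjoint_filter_filter_not _ _ _
          have hcard : Q1.card + Q2.card = Q.card := by
            rw [← Finset.card_union_of_disjoint hd, hU]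
          have hc1 : 0 < Q1.card :=
            Finset.card_pos.2 ⟨u, Finset.mem_filter.2 ⟨hu, Relation.ReflTransGen.refl⟩⟩
          have hc2 : 0 < Q2.card := Finset.card_pos.2 ⟨v, Finset.mem_filter.2 ⟨hv, huv⟩⟩
          have hfar : ∀ a ∈ Q1, ∀ b ∈ Q2, ¬ nr3 (sadj E) a b := by
            intro a ha b hb hab
            have ha2 := (Finset.mem_filter.1 ha).2
            have hb2 := Finset.mem_filter.1 hb
            exact hb2.2 (ha2.tail ⟨hb2.1, hab⟩)
          obtain ⟨e1, e2, e3, e4⟩ := hFAR α β E R X Y L D Q1 Q2 hL hR hfar
          have i1 := ih Q1 (by omega)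
          have i2 := ih Q2 (by omega)
          rw [hU] at e1 e2 e3 e4
          have hcr : (Q.card : ℝ) = Q1.card + Q2.card := by rw [← hcard]; push_cast; rfl
          unfold HQ at i1 i2 ⊢
          rw [e1, e2, e3, e4, hcr]
          push_cast
          obtain ⟨a1, a2⟩ := i1
          obtain ⟨b1, b2⟩ := i2
          constructor
          · nlinarith [a1, b1]
          · nlinarith [a2, b2]
        · rw [Finset.not_nonempty_iff_eq_empty] at hne
          exact ih Q (by rw [hne]; simp)
  intro Q
  exact main Q.card Q le_rfl

end Pool.Agent.LAP.H48
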