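import Mathlib
import Pool.Agent.Helper96_LAX.Defs

/-!
# LAP: definitions

Paper proof: `/team-store/PAPER_LACPOLY.md`. `out`, `inn`, `dom`, `ran`, `PI`, `CW`, `Acyc`, `rv`, `Reg`,
`Round` are those of LAX.
-/

set_option autoImplicit false

namespace Pool.Agent.LAP

open Pool.Agent.LAX

variable {V : Type}

/-- The labels. -/
abbrev Lab := ZMod 4096

/-! ### Blocks of a permutation -/

/-- All cycles of `σ` have length at least `L`. -/
def Cyc (σ : Equiv.Perm V) (L : ℕ) : Prop := ∀ (j : ℕ) (v : V), 1 ≤ j → j < L → (σ ^ j) v ≠ v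

/-- A partition of the cycles of `σ` into blocks (intervals) of at least `L` and at most `2 L`
vertices. `st v` = first vertex of the block of `v`, `bk v` = distance from `st v` to `v`,
`nx v` = first vertex of the next block. -/
structure BS (σ : Equiv.Perm V) (L : ℕ) where
  bk : V → ℕ
  st : V → V
  nx : V → V
  lt : ∀ v, bk v < 2 * L
  pos : ∀ v, (σ ^ bk v) (st v) = v
  bst : ∀ v, bk (st v) = 0
  sst : ∀ v, st (st v) = st v
  nst : ∀ v, nx (st v) = nx v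
  snx : ∀ v, st (nx v) = nx v
  step : ∀ v, (bk (σ v) = bk v + 1 ∧ st (σ v) = st v ∧ nx (σ v) = nx v) ∨
    (σ v = nx v ∧ L ≤ bk v + 1)

/-! ### The random data of a class -/

/-- The random data at a vertex: `v` is marked iff the first component is `0`; the second component
is the offset of the end of the block which starts at `v`; the third is the label of that block. -/
abbrev Om (a : ℕ) := Fin (2 ^ (a - 5)) × Fin (2 ^ (a - 1)) × Lab

section sample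

variable {σ : Equiv.Perm V} {a : ℕ} (B : BS σ (2 ^ a)) (ω : V → Om a)

/-- The end of the block. -/
def isEnd (v : V) : Prop := B.bk v = ((ω (B.st v)).2.1 : ℕ)

open Classical in
/-- The label of `v` as a tail. -/
noncomputable def tl (v : V) : Lab :=
  if B.bk v ≤ ((ω (B.st v)).2.1 : ℕ) then (ω (B.st v)).2.2 else (ω (B.nx v)).2.2

open Classical in
/-- The label of `v` as a head (the label behind `v`). -/
noncomputable def hl (v : V) : Lab :=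
  if B.bk v < ((ω (B.st v)).2.1 : ℕ) then (ω (B.st v)).2.2 else (ω (B.nx v)).2.2

/-- Flexible vertices: marked, no other mark and no end within distance `2 ^ (a - 10)`. -/
def isFlex (v : V) : Prop :=
  ((ω v).1 : ℕ) = 0 ∧
  (∀ j, 1 ≤ j → j ≤ 2 ^ (a - 10) →
    ((ω ((σ ^ j) v)).1 : ℕ) ≠ 0 ∧ ((ω ((σ⁻¹ ^ j) v)).1 : ℕ) ≠ 0) ∧
  ∀ j, j ≤ 2 ^ (a - 10) → ¬ isEnd B ω ((σ ^ j) v) ∧ ¬ isEnd B ω ((σ⁻¹ ^ j) v)

/-- The nodes of the flexible vertices. -/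
def FL : Set (V × Lab) := {p | isFlex B ω p.1 ∧ tl B ω p.1 = p.2}

/-- The tail nodes of the ends. -/
def ET : Set (V × Lab) := {p | isEnd B ω p.1 ∧ tl B ω p.1 = p.2}

/-- The head nodes of the ends. -/
def EH : Set (V × Lab) := {p | isEnd B ω p.1 ∧ hl B ω p.1 = p.2}

/-- The picks. -/
def pk : Set V := {v | isFlex B ω v ∨ isEnd B ω v}

end sample

/-- The vertices of the block of `v`, of the next block and of the previous block. -/
def nb {σ : Equiv.Perm V} {L : ℕ} (B : BS σ L) (v : V) : Set V :=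
  {v' | B.st v' = B.st v ∨ B.st v' = B.nx v ∨ B.nx v' = B.st v}

/-- The new class: unpicked arcs of `K`, links of `M`, own arcs of `M`. -/
def nk {σ : Equiv.Perm V} {a : ℕ} (B : BS σ (2 ^ a)) (ω : V → Om a) (K : Set (V × V))
    (M : Set ((V × Lab) × (V × Lab))) : Set (V × V) :=
  {p | p ∈ K ∧ p.1 ∉ pk B ω} ∪
  {p | ∃ z ∈ M, z.1 ≠ z.2 ∧ z.1.1 = p.1 ∧ σ z.2.1 = p.2} ∪
  {p | p ∈ K ∧ ∃ z ∈ M, z.1 = z.2 ∧ z.1.1 = p.1}

/-! ### The node digraph -/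

/-- Node digraph of a class: `v → v'` iff `(v, σ v') ∈ R`. -/
def qd (R : Set (V × V)) (σ : Equiv.Perm V) : Set (V × V) := {p | (p.1, σ p.2) ∈ R}

/-- Out-neighbours of a labelled node. -/
def ow (Q : Set (V × V)) (δ : Lab) (p : V × Lab) : Set (V × Lab) :=
  {p' | (p.1, p'.1) ∈ Q ∧ (p'.2 = p.2 + δ ∨ p'.2 = p.2 + 2 * δ)}

/-- Out-neighbours of a set of labelled nodes. -/
def SS (Q : Set (V × V)) (δ : Lab) (T : Set (V × Lab)) : Set (V × Lab) :=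
  {p' | ∃ p ∈ T, p' ∈ ow Q δ p}

/-- The number of out-neighbours of `p` outside `SS T`. -/
noncomputable def leak (Q : Set (V × V)) (δ : Lab) (T : Set (V × Lab)) (p : V × Lab) : ℕ :=
  (ow Q δ p \ SS Q δ T).ncard

/-- The nodes with small leak. -/
def AA (Q : Set (V × V)) (δ : Lab) (k0 : ℕ) (T : Set (V × Lab)) : Set (V × Lab) :=
  {p | 5 * leak Q δ T p ≤ k0}

/-- The total leak of `A`. -/
noncomputable def slk [Fintype V] (Q : Set (V × V)) (δ : Lab) (T A : Set (V × Lab)) : ℝ :=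
  ∑ p, A.indicator (fun p => (leak Q δ T p : ℝ)) p

/-- The number of partial columns of `A`. -/
noncomputable def part (A : Set (V × Lab)) : ℕ :=
  {x : V | (∃ i, (x, i) ∈ A) ∧ ∃ i, (x, i) ∉ A}.ncard

/-- The conditions on a sample for the fingerprints `T0 ⊆ T`. -/
structure NC [Fintype V] (Q : Set (V × V)) (δ : Lab) (k0 : ℕ) (r β : ℝ)
    (L Et Eh T0 T : Set (V × Lab)) : Prop where
  n0 : r / 2 * (SS Q δ T \ SS Q δ T0).ncard ≤
    (L ∩ (SS Q δ T \ SS Q δ T0)).ncard + β * T.ncard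
  n1 : 19 / 20 * r * (SS Q δ T \ AA Q δ k0 T).ncard ≤
    (L ∩ (SS Q δ T \ AA Q δ k0 T)).ncard + β * T.ncard
  n2 : ((L ∩ (AA Q δ k0 T \ SS Q δ T)).ncard : ℝ) ≤
    6 / 5 * r * (AA Q δ k0 T \ SS Q δ T).ncard + β * T.ncard
  n3 : 19 / 20 * r * slk Q δ T (AA Q δ k0 T) ≤
    slk Q δ T (L ∩ AA Q δ k0 T) + 2 * k0 * (β * T.ncard)
  n4 : ((Et ∩ AA Q δ k0 T).ncard : ℝ) ≤
    (Eh ∩ SS Q δ T).ncard + r / 12 * (AA Q δ k0 T \ SS Q δ T).ncard +
    r / 100 * (part (AA Q δ k0 T) + (SS Q δ T \ AA Q δ k0 T).ncard) + β * T.ncard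
  n5 : 19 / 20 * r * (AA Q δ k0 T).ncard ≤ (L ∩ AA Q δ k0 T).ncard + β * T.ncard

/-- The vertices near `x` in the digraph `Q`. -/
def rho (Q : Set (V × V)) (x : V) : Set V := out Q x ∪ {x' | ∃ y, (x', y) ∈ Q ∧ (x, y) ∈ Q}

/-- Adjacency of labelled nodes. -/
def gam (Q : Set (V × V)) (p p' : V × Lab) : Prop := ∃ v, v ∈ rho Q p.1 ∧ v ∈ rho Q p'.1

/-- Connected finite sets. -/
inductive Bld {ν : Type} [DecidableEq ν] (G : ν → ν → Prop) : Finset ν → Prop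
  | one (t : ν) : Bld G {t}
  | add (T : Finset ν) (t t' : ν) : Bld G T → t ∈ T → G t t' → Bld G (insert t' T)

/-! ### Numbers -/

/-- `7 / 8` of the probability that `v` is marked and has a given label. -/
noncomputable def rr (a : ℕ) : ℝ := 7 / 2 ^ (a + 10)

/-- The exponent. -/
noncomputable def th : ℝ := 1 / 2 ^ 20

/-- A good sample for one class. -/
structure GoodC [Fintype V] {σ : Equiv.Perm V} {a : ℕ} (B : BS σ (2 ^ a)) (ω : V → Om a)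
    (R : Set (V × V)) (Zp Zm : Set V) (k0 : ℕ) (β s1 s2 : ℝ) : Prop where
  nf : ∀ T0 T, T0 ⊆ T → NC (qd R σ) 1 k0 (rr a) β (FL B ω) (ET B ω) (EH B ω) T0 T
  nr : ∀ T0 T, T0 ⊆ T → NC (rv (qd R σ)) (-1) k0 (rr a) β (FL B ω) (EH B ω) (ET B ω) T0 T
  sf : ∀ p, s1 ≤ ((ow (qd R σ) 1 p ∩ FL B ω ∩ {p' | p'.1 ∈ Zp}).ncard : ℝ)
  sr : ∀ p, s1 ≤ ((ow (rv (qd R σ)) (-1) p ∩ FL B ω ∩ {p' | σ p'.1 ∈ Zm}).ncard : ℝ)
  df : ∀ p, ((ow (rv (qd R σ)) (-1) p ∩ (FL B ω ∪ ET B ω)).ncard : ℝ) ≤ s2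
  dr : ∀ p, ((ow (qd R σ) 1 p ∩ (FL B ω ∪ EH B ω)).ncard : ℝ) ≤ s2

/-- The condition of the Hall lemma. -/
def HC (k0 w Hb : ℕ) (lam r β s1 s2 : ℝ) : Prop :=
  600 * lam * (β + Hb) / (k0 * r) + 2 * w / k0 ≤ s1 / (5 * s2)

/-- `q` disjoint classes with closed walks at least `b`, every vertex is missing in at most `W` of
the `dom` and at most `W` of the `ran`. -/
structure Stt (E : Set (V × V)) (q b W : ℕ) (K : ℕ → Set (V × V)) : Prop where
  sub : ∀ c < q, K c ⊆ E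
  pi : ∀ c < q, PI (K c)
  cw : ∀ c < q, CW (K c) b
  disj : ∀ c < q, ∀ d < q, c ≠ d → Disjoint (K c) (K d)
  mo : ∀ v, {c | c < q ∧ v ∉ dom (K c)}.ncard ≤ W
  mi : ∀ v, {c | c < q ∧ v ∉ ran (K c)}.ncard ≤ W

/-- The parameters: `lam = 2 ^ l`, `q = 2 ^ (s + I)` classes, levels `s, ..., s + f`. -/
structure Par (k l s I f : ℕ) : Prop where
  p1 : 17 * (k : ℝ) ^ 2 ≤ Real.exp ((2 : ℝ) ^ l)
  p1' : (2 : ℝ) ^ l ≤ 4 * (Real.log k + 3)
  p2 : s = 3 * l + 64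
  p3 : 2 ^ (s + I + 3) ≤ k
  p3' : k < 2 ^ (s + I + 4)
  p4 : 2 ^ (s + f + 52 + 2 * l) ≤ k
  p4' : k < 2 ^ (s + f + 53 + 2 * l)
  i1 : f + 1 ≤ 2 ^ l
  i2 : I ≤ 2 ^ (l + 1)

/-- The numerical conditions of a step at level `a`. -/
structure NumS (k l a h q W : ℕ) : Prop where
  p1 : 17 * (k : ℝ) ^ 2 ≤ Real.exp ((2 : ℝ) ^ l)
  a1 : 64 ≤ a
  h1 : 2 ^ (h + a + 52 + 2 * l) ≤ k
  h2 : k < 2 ^ (h + a + 53 + 2 * l)
  q1 : 2 ^ (a + l - 6) ∣ q
  q2 : 8 * q ≤ k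
  q3 : 1 ≤ q
  w1 : W + 2 ^ (2 * l + 64) ≤ 2 ^ (a + 2)

end Pool.Agent.LAP
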