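import Mathlib
import Pool.Agent.Helper96_LAX.Basic
import Pool.Agent.Helper48_LAP.Defs

/-!
# LAP: simple lemmas
-/

set_option autoImplicit false

namespace Pool.Agent.LAP

open Pool.Agent.LAX

variable {V : Type}

lemma lab_ne {δ : Lab} (hδ : δ = 1 ∨ δ = -1) : δ ≠ 2 * δ := by
  rcases hδ with rfl | rfl <;> decide

lemma ow_ncard [Finite V] (Q : Set (V × V)) {δ : Lab} (hδ : δ = 1 ∨ δ = -1) (p : V × Lab) :
    (ow Q δ p).ncard = 2 * (out Q p.1).ncard := by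
  have h : ow Q δ p = (out Q p.1) ×ˢ ({p.2 + δ, p.2 + 2 * δ} : Set Lab) := by
    ext p'
    simp [ow, out]
  have h2 : ({p.2 + δ, p.2 + 2 * δ} : Set Lab).ncard = 2 := by
    rw [Set.ncard_pair]
    intro h
    exact lab_ne hδ (add_left_cancel h)
  rw [h, Set.ncard_prod, h2, mul_comm]

lemma mem_ow {Q : Set (V × V)} {δ : Lab} {p p' : V × Lab} :
    p' ∈ ow Q δ p ↔ (p.1, p'.1) ∈ Q ∧ (p'.2 = p.2 + δ ∨ p'.2 = p.2 + 2 * δ) := Iff.rfl

lemma mem_ow_rv {Q : Set (V × V)} {δ : Lab} {p p' : V × Lab} :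
    p ∈ ow (rv Q) (-δ) p' ↔ p' ∈ ow Q δ p := by
  simp only [mem_ow, mem_rv]
  constructor
  · rintro ⟨h1, h2 | h2⟩
    · exact ⟨h1, Or.inl (by rw [h2]; ring)⟩
    · exact ⟨h1, Or.inr (by rw [h2]; ring)⟩
  · rintro ⟨h1, h2 | h2⟩
    · exact ⟨h1, Or.inl (by rw [h2]; ring)⟩
    · exact ⟨h1, Or.inr (by rw [h2]; ring)⟩

lemma mem_qd {R : Set (V × V)} {σ : Equiv.Perm V} {v v' : V} : (v, v') ∈ qd R σ ↔ (v, σ v') ∈ R :=
  Iff.rfl

lemma out_qd_ncard (R : Set (V × V)) (σ : Equiv.Perm V) (x : V) :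
    (out (qd R σ) x).ncard = (out R x).ncard := by
  have h : σ '' out (qd R σ) x = out R x := by
    ext y
    simp only [out, qd, Set.mem_image, Set.mem_setOf_eq]
    constructor
    · rintro ⟨z, hz, rfl⟩
      exact hz
    · intro hy
      exact ⟨σ⁻¹ y, by simpa using hy, by simp⟩
  rw [← h, Set.ncard_image_of_injective _ σ.injective]

lemma inn_qd (R : Set (V × V)) (σ : Equiv.Perm V) (y : V) : inn (qd R σ) y = inn R (σ y) := rfl

lemma out_rv_qd (R : Set (V × V)) (σ : Equiv.Perm V) (y : V) :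
    out (rv (qd R σ)) y = inn R (σ y) := rfl

lemma inn_rv_qd (R : Set (V × V)) (σ : Equiv.Perm V) (x : V) :
    inn (rv (qd R σ)) x = out (qd R σ) x := rfl

lemma gam_symm {Q : Set (V × V)} {p p' : V × Lab} (h : gam Q p p') : gam Q p' p := by
  obtain ⟨v, h1, h2⟩ := h
  exact ⟨v, h2, h1⟩

lemma mem_SS {Q : Set (V × V)} {δ : Lab} {T : Set (V × Lab)} {p' : V × Lab} :
    p' ∈ SS Q δ T ↔ ∃ p ∈ T, p' ∈ ow Q δ p := Iff.rfl

lemma SS_mono {Q : Set (V × V)} {δ : Lab} {T T' : Set (V × Lab)} (h : T ⊆ T') :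
    SS Q δ T ⊆ SS Q δ T' := fun _ ⟨p, hp, h2⟩ => ⟨p, h hp, h2⟩

lemma SS_union (Q : Set (V × V)) (δ : Lab) (T T' : Set (V × Lab)) :
    SS Q δ (T ∪ T') = SS Q δ T ∪ SS Q δ T' := by
  ext p
  simp only [mem_SS, Set.mem_union]
  constructor
  · rintro ⟨t, h | h, h2⟩
    · exact Or.inl ⟨t, h, h2⟩
    · exact Or.inr ⟨t, h, h2⟩
  · rintro (⟨t, h, h2⟩ | ⟨t, h, h2⟩)
    · exact ⟨t, Or.inl h, h2⟩
    · exact ⟨t, Or.inr h, h2⟩

@[simp] lemma SS_empty (Q : Set (V × V)) (δ : Lab) : SS Q δ ∅ = ∅ := by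
  ext p; simp [mem_SS]

lemma SS_singleton (Q : Set (V × V)) (δ : Lab) (p : V × Lab) : SS Q δ {p} = ow Q δ p := by
  ext p'; simp [mem_SS]

lemma ow_subset_SS {Q : Set (V × V)} {δ : Lab} {T : Set (V × Lab)} {p : V × Lab} (h : p ∈ T) :
    ow Q δ p ⊆ SS Q δ T := fun _ h2 => ⟨p, h, h2⟩

lemma rr_pos (a : ℕ) : 0 < rr a := by unfold rr; positivity

lemma th_pos : 0 < th := by unfold th; positivity

/-- If `p` is in `AA`, then `ow p` meets `SS`. -/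
lemma meets_of_mem_AA [Finite V] {Q : Set (V × V)} {δ : Lab} (hδ : δ = 1 ∨ δ = -1) {k0 : ℕ}
    (hk : 1 ≤ k0) {p : V × Lab} (hp : k0 ≤ 2 * (out Q p.1).ncard) {T : Set (V × Lab)}
    (h : p ∈ AA Q δ k0 T) : (ow Q δ p ∩ SS Q δ T).Nonempty := by
  by_contra hne
  rw [Set.not_nonempty_iff_eq_empty, ← Set.disjoint_iff_inter_eq_empty] at hne
  have h1 : leak Q δ T p = (ow Q δ p).ncard := by
    unfold leak
    rw [hne.sdiff_eq_left]
  have h2 : 5 * leak Q δ T p ≤ k0 := h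
  rw [h1, ow_ncard Q hδ] at h2
  omega

end Pool.Agent.LAP
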