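import Pool.Agent.Helper23_LAP.Stmts

/-!
# LAP (helper23), module FPB
-/

set_option autoImplicit false

namespace Pool.Agent.LAP.H48

open Pool.Agent.LAP

open scoped Classical

variable {α β : Type}

lemma mem_tr {R : Finset (α × β)} {x : α} {y : β} : (y, x) ∈ tr R ↔ (x, y) ∈ R := by
  unfold tr
  rw [Finset.mem_image]
  constructor
  · rintro ⟨⟨a, b⟩, h1, h2⟩
    simp only [Prod.swap_prod_mk, Prod.mk.injEq] at h2
    rw [← h2.1, ← h2.2]
    exact h1
  · intro h
    exact ⟨(x, y), h, rfl⟩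

lemma out_tr [Fintype α] {R : Finset (α × β)} {y : β} : out (tr R) y = inn R y := by
  ext x
  simp [out, inn, mem_tr]

lemma inn_tr [Fintype β] {R : Finset (α × β)} {x : α} : inn (tr R) x = out R x := by
  ext y
  simp [out, inn, mem_tr]

lemma clO_tr [Fintype α] [Fintype β] {E : Finset (α × β)} {t : ℕ} {Q : Finset α} :
    clO (tr E) t Q = clI E t Q := by
  ext y
  simp only [clO, clI, Finset.mem_filter, out_tr]

lemma ain_tr_card {R : Finset (α × β)} {X : Finset α} {Y : Finset β} {A : Finset α}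
    {B : Finset β} : (ain (tr R) Y X B A).card = (aou R X Y A B).card := by
  refine Finset.card_nbij' Prod.swap Prod.swap ?_ ?_ ?_ ?_
  · rintro ⟨y, x⟩ h
    simp only [ain, Finset.coe_filter, Set.mem_ofPred_eq, mem_tr] at h
    simp only [aou, Finset.coe_filter, Set.mem_ofPred_eq, Prod.swap_prod_mk]
    tauto
  · rintro ⟨x, y⟩ h
    simp only [aou, Finset.coe_filter, Set.mem_ofPred_eq] at h
    simp only [ain, Finset.coe_filter, Set.mem_ofPred_eq, Prod.swap_prod_mk, mem_tr]
    tauto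
  · rintro ⟨y, x⟩ _; rfl
  · rintro ⟨x, y⟩ _; rfl

lemma aou_tr_card {R : Finset (α × β)} {X : Finset α} {Y : Finset β} {A : Finset α}
    {B : Finset β} : (aou (tr R) Y X B A).card = (ain R X Y A B).card := by
  refine Finset.card_nbij' Prod.swap Prod.swap ?_ ?_ ?_ ?_
  · rintro ⟨y, x⟩ h
    simp only [aou, Finset.coe_filter, Set.mem_ofPred_eq, mem_tr] at h
    simp only [ain, Finset.coe_filter, Set.mem_ofPred_eq, Prod.swap_prod_mk]
    tauto
  · rintro ⟨x, y⟩ h
    simp only [ain, Finset.coe_filter, Set.mem_ofPred_eq] at h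
    simp only [aou, Finset.coe_filter, Set.mem_ofPred_eq, Prod.swap_prod_mk, mem_tr]
    tauto
  · rintro ⟨y, x⟩ _; rfl
  · rintro ⟨x, y⟩ _; rfl

lemma crs_card {R : Finset (α × β)} {X : Finset α} {Y : Finset β} {A : Finset α}
    {B : Finset β} : (crs R X Y A B).card = (ain R X Y A B).card + (aou R X Y A B).card := by
  unfold crs
  apply Finset.card_union_of_disjoint
  rw [Finset.disjoint_left]
  intro a h1 h2
  exact (Finset.mem_filter.1 h1).2.1.2 (Finset.mem_filter.1 h2).2.1.2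

lemma Cl.tr [Fintype α] [Fintype β] {E R : Finset (α × β)} {X : Finset α} {Y : Finset β}
    {D δ : ℝ} (h : Cl E R X Y D δ) : Cl (tr E) (LAP.tr R) Y X D δ where
  sub := by
    rintro ⟨y, x⟩ ha
    rw [mem_tr] at ha ⊢
    exact h.sub ha
  ol := fun y => by rw [out_tr]; exact h.il y
  ou := fun y => by rw [out_tr]; exact h.iu y
  il := fun x => by rw [inn_tr]; exact h.ol x
  iu := fun x => by rw [inn_tr]; exact h.ou x

theorem fpb (hFPA : FPAStmt) : FPBStmt := by
  intro α β _ _ E R X Y L D δ A B h1 h2 h3 h4 h5 hc hA hB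
  obtain ⟨Q2, hQ2, hQ2c, hQ2s⟩ := hFPA α β E R X Y L D δ A B h1 h2 h3 h4 h5 hc hA hB
  obtain ⟨Q1, hQ1, hQ1c, hQ1s⟩ := hFPA β α (tr E) (tr R) Y X L D δ B A h1 h2 h3 h4 h5
    (Cl.tr hc) hB hA
  rw [clO_tr, aou_tr_card, ain_tr_card] at hQ1s
  have hLr : (10 : ℝ) ^ 4 ≤ L := by exact_mod_cast h1
  have hD : 0 < D := by
    have : (0 : ℝ) < (L : ℝ) ^ 19 := by positivity
    linarith
  refine ⟨uni Q1 Q2, ?_, ?_, ?_⟩
  · unfold uni
    exact Finset.union_subset_union (Finset.image_subset_image hQ1) (Finset.image_subset_image hQ2)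
  · have hcard : (uni Q1 Q2).card ≤ Q1.card + Q2.card := by
      unfold uni
      exact (Finset.card_union_le _ _).trans (add_le_add Finset.card_image_le Finset.card_image_le)
    have hcr : ((uni Q1 Q2).card : ℝ) ≤ Q1.card + Q2.card := by exact_mod_cast hcard
    have h6 : (0 : ℝ) ≤ (L : ℝ) ^ 2 * (A.card + B.card) / D := by positivity
    have e1 : 4 * (L : ℝ) ^ 2 * (B.card + A.card) / D = 4 * ((L : ℝ) ^ 2 * (A.card + B.card) / D) := by
      ring
    have e2 : 4 * (L : ℝ) ^ 2 * (A.card + B.card) / D = 4 * ((L : ℝ) ^ 2 * (A.card + B.card) / D) := by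
      ring
    have e3 : 9 * (L : ℝ) ^ 2 * (A.card + B.card) / D = 9 * ((L : ℝ) ^ 2 * (A.card + B.card) / D) := by
      ring
    rw [e1] at hQ1c
    rw [e2] at hQ2c
    rw [e3]
    linarith
  · have hr : rp (uni Q1 Q2) = Q2 := by
      ext y; simp [rp, uni]
    have hl : lp (uni Q1 Q2) = Q1 := by
      ext x; simp [lp, uni]
    unfold clA clB
    rw [hr, hl, crs_card]
    push_cast
    have e1 : ((B.card : ℝ) + A.card) / (4 * D) = (A.card + B.card) / (2 * D) / 2 := by
      field_simp; ring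
    have e2 : ((A.card : ℝ) + B.card) / (4 * D) = (A.card + B.card) / (2 * D) / 2 := by
      field_simp; ring
    rw [e1] at hQ1s
    rw [e2] at hQ2s
    have e3 : 12 * (((ain R X Y A B).card : ℝ) + (aou R X Y A B).card) / D =
        (4 * ((aou R X Y A B).card : ℝ) / D + 8 * ((ain R X Y A B).card : ℝ) / D) +
        (4 * ((ain R X Y A B).card : ℝ) / D + 8 * ((aou R X Y A B).card : ℝ) / D) := by ring
    rw [e3]
    linarith

end Pool.Agent.LAP.H48
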