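import Mathlib
import Pool.Agent.Helper96_LAX.Defs
import Pool.Agent.Helper96_LAX.Stmts
import Pool.Agent.Helper48_LAP.Defs

/-!
# LAP: exact statements of the modules

Paper proof: `/team-store/PAPER_LACPOLY.md`; plan of the modules: `/team-store/PLAN_LAP.md`.
-/

set_option autoImplicit false

namespace Pool.Agent.LAP

open Pool.Agent.LAX

/-! ### A: one class, deterministic -/

/-- BST: blocks exist. -/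
def BstStmt : Prop := ∀ (V : Type) [Finite V] (σ : Equiv.Perm V) (L : ℕ), 1 ≤ L → Cyc σ L →
  Nonempty (BS σ L)

/-- NBH: sizes of the neighbourhoods `nb`. -/
def NbhStmt : Prop := ∀ (V : Type) [Finite V] (σ : Equiv.Perm V) (L : ℕ) (B : BS σ L), 1 ≤ L →
  ∀ v, (nb B v).ncard ≤ 6 * L ∧ {v' | v ∈ nb B v'}.ncard ≤ 6 * L

/-- LAB: labels along a class. -/
def LabStmt : Prop := ∀ (V : Type) [Finite V] (σ : Equiv.Perm V) (a : ℕ) (B : BS σ (2 ^ a))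
  (ω : V → Om a), 10 ≤ a → Cyc σ (2 ^ a) →
  (∀ v, tl B ω (σ v) = hl B ω v) ∧ (∀ v, ¬ isEnd B ω v → hl B ω v = tl B ω v) ∧
  (∀ v, isFlex B ω v → ¬ isEnd B ω v) ∧ (∀ v, ∃ j, isEnd B ω ((σ ^ j) v)) ∧
  ∀ v j, v ∈ pk B ω → (σ ^ j) v ∈ pk B ω → 1 ≤ j → 2 ^ (a - 10) < j

/-- LOC: everything at `v` depends only on the data in `nb v`. -/
def LocStmt : Prop := ∀ (V : Type) [Finite V] (σ : Equiv.Perm V) (a : ℕ) (B : BS σ (2 ^ a))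
  (ω ω' : V → Om a) (v : V), 10 ≤ a → (∀ v' ∈ nb B v, ω v' = ω' v') →
  (isFlex B ω v ↔ isFlex B ω' v) ∧ (isEnd B ω v ↔ isEnd B ω' v) ∧ tl B ω v = tl B ω' v ∧
  hl B ω v = hl B ω' v

/-- RLK: the new class. -/
def RlkStmt : Prop := ∀ (V : Type) [Finite V] (σ : Equiv.Perm V) (a : ℕ) (B : BS σ (2 ^ a))
  (ω : V → Om a) (K R : Set (V × V)) (M : Set ((V × Lab) × (V × Lab))) (Zp Zm : Set V),
  10 ≤ a → Cyc σ (2 ^ a) → (∀ p ∈ K, σ p.1 = p.2) → PI M →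
  (∀ z ∈ M, (z.1 = z.2 ∧ z.1 ∈ FL B ω) ∨ (z.1 ∈ FL B ω ∪ ET B ω ∧ z.2 ∈ FL B ω ∪ EH B ω ∧
    (z.1.1, σ z.2.1) ∈ R ∧ (z.2.2 = z.1.2 + 1 ∨ z.2.2 = z.1.2 + 2))) →
  (∀ p ∈ FL B ω ∪ ET B ω, p ∉ dom M → p ∈ FL B ω ∧ p.1 ∈ Zp) →
  (∀ p ∈ FL B ω ∪ EH B ω, p ∉ ran M → p ∈ FL B ω ∧ σ p.1 ∈ Zm) →
  PI (nk B ω K M) ∧ nk B ω K M ⊆ K ∪ R ∧ CW (nk B ω K M) (2 ^ (a + 1)) ∧
  (∀ x ∈ dom K, x ∉ dom (nk B ω K M) → x ∈ Zp ∧ x ∈ pk B ω) ∧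
  (∀ y ∈ ran K, y ∉ ran (nk B ω K M) → y ∈ Zm ∧ σ⁻¹ y ∈ pk B ω) ∧
  ∀ p ∈ nk B ω K M, p ∉ K → p.1 ∈ pk B ω ∧ σ⁻¹ p.2 ∈ pk B ω

/-! ### B: the Hall lemma -/

/-- HIT: greedy hitting sets. -/
def HitStmt : Prop := ∀ (α β : Type) [Finite α] [Finite β] (rel : Set (α × β)) (m N : ℝ),
  0 < m → 1 ≤ N → (∀ y, m ≤ (inn rel y).ncard) → (Nat.card β : ℝ) * m ≤ N * Nat.card α →
  ∃ T : Set α, (∀ y, ∃ x ∈ T, (x, y) ∈ rel) ∧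
    (T.ncard : ℝ) ≤ Nat.card α / m * (2 + Real.log N)

/-- KIN: the column inequality. -/
def KinStmt : Prop := ∀ (V : Type) [Fintype V] (Q : Set (V × V)) (δ : Lab) (k0 w : ℕ),
  (δ = 1 ∨ δ = -1) → (∀ x, k0 ≤ (out Q x).ncard + w) → (∀ x, (inn Q x).ncard ≤ k0) → w ≤ k0 →
  ∀ T A : Set (V × Lab), ((k0 : ℝ) - w) * (A.ncard + part A) ≤
    k0 * (SS Q δ T).ncard + slk Q δ T A

/-- FPT: the fingerprint `T` of a set `A`. -/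
def FptStmt : Prop := ∀ (V : Type) [Fintype V] (Q : Set (V × V)) (δ : Lab) (k0 : ℕ)
  (lam r β : ℝ) (L Et Eh : Set (V × Lab)), 1 ≤ k0 → 2 + Real.log (2 * k0) ≤ lam → 0 < r → 0 < β →
  (∀ x, (out Q x).ncard ≤ k0) → (∀ T0 T, T0 ⊆ T → NC Q δ k0 r β L Et Eh T0 T) →
  ∀ A : Set (V × Lab), ∃ T ⊆ A, (T.ncard : ℝ) ≤ 128 * lam / (k0 * r) * A.ncard ∧
    (∀ x ∈ A, r / 2 * leak Q δ T x ≤ (L ∩ (ow Q δ x \ SS Q δ T)).ncard + 2 * β) ∧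
    ∀ y, y ∉ SS Q δ T → ({x | x ∈ A ∧ y ∈ ow Q δ x}.ncard : ℝ) ≤ k0 * r / 64

/-- HALL: Hall's condition. -/
def HallStmt : Prop := ∀ (V : Type) [Fintype V] (Q : Set (V × V)) (δ : Lab) (k0 w Hb : ℕ)
  (lam r β s1 s2 : ℝ) (L Et Eh Z : Set (V × Lab)) (H : Set ((V × Lab) × (V × Lab))),
  (δ = 1 ∨ δ = -1) → 1 ≤ k0 → 20 * w ≤ k0 → 2 + Real.log (2 * k0) ≤ lam → 0 < r → 0 < β →
  0 < s1 → 0 < s2 →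
  (∀ x, k0 ≤ (out Q x).ncard + w ∧ (out Q x).ncard ≤ k0 ∧ (inn Q x).ncard ≤ k0) →
  Disjoint L Et → Disjoint L Eh → Z ⊆ L → (∀ T0 T, T0 ⊆ T → NC Q δ k0 r β L Et Eh T0 T) →
  (∀ z ∈ H, z.2 ∈ ow Q δ z.1 ∧ z.1 ∈ L ∪ Et ∧ z.2 ∈ L ∪ Eh) →
  (∀ p ∈ L ∪ Et, ((ow Q δ p ∩ (L ∪ Eh)) \ out H p).ncard ≤ Hb) →
  (∀ p ∈ L ∪ Et, s1 ≤ ((out H p ∩ Z).ncard : ℝ)) → (∀ p ∈ Z, ((inn H p).ncard : ℝ) ≤ s2) →
  HC k0 w Hb lam r β s1 s2 →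
  ∀ A : Set (V × Lab), A ⊆ (L ∪ Et) \ Z →
    A.ncard ≤ ({y | ∃ x ∈ A, (x, y) ∈ H} ∪ (A ∩ L)).ncard

/-- MD: Mendelsohn-Dulmage. -/
def MdStmt : Prop := ∀ (α β : Type) [Finite α] [Finite β] (M1 M2 : Set (α × β)) (X : Set α)
  (Y : Set β), PI M1 → PI M2 → X ⊆ dom M1 → Y ⊆ ran M2 →
  ∃ M ⊆ M1 ∪ M2, PI M ∧ X ⊆ dom M ∧ Y ⊆ ran M

/-- MAT: the matching of one class; `Us` = used arcs. -/
def MatStmt : Prop := ∀ (V : Type) [Fintype V] (σ : Equiv.Perm V) (a : ℕ) (B : BS σ (2 ^ a))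
  (ω : V → Om a) (R Us : Set (V × V)) (Zp Zm : Set V) (k0 w Hb : ℕ) (lam β s1 s2 : ℝ),
  10 ≤ a → Cyc σ (2 ^ a) → 1 ≤ k0 → 20 * w ≤ k0 → 2 + Real.log (2 * k0) ≤ lam → 0 < β →
  0 < s2 → (Hb : ℝ) < s1 →
  (∀ x, k0 ≤ (out R x).ncard + w ∧ (out R x).ncard ≤ k0 ∧ k0 ≤ (inn R x).ncard + w ∧
    (inn R x).ncard ≤ k0) →
  (∀ x, (out Us x).ncard ≤ Hb ∧ (inn Us x).ncard ≤ Hb) →
  GoodC B ω R Zp Zm k0 β s1 s2 → HC k0 w Hb lam (rr a) β (s1 - Hb) s2 →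
  ∃ M : Set ((V × Lab) × (V × Lab)), PI M ∧
  (∀ z ∈ M, (z.1 = z.2 ∧ z.1 ∈ FL B ω) ∨ (z.1 ∈ FL B ω ∪ ET B ω ∧ z.2 ∈ FL B ω ∪ EH B ω ∧
    (z.1.1, σ z.2.1) ∈ R \ Us ∧ (z.2.2 = z.1.2 + 1 ∨ z.2.2 = z.1.2 + 2))) ∧
  (∀ p ∈ FL B ω ∪ ET B ω, p ∉ dom M → p ∈ FL B ω ∧ p.1 ∈ Zp) ∧
  (∀ p ∈ FL B ω ∪ EH B ω, p ∉ ran M → p ∈ FL B ω ∧ σ p.1 ∈ Zm)

/-! ### C: concentration -/

/-- HOLD: Hoelder's inequality for sums of local functions. -/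
def HoldStmt : Prop := ∀ (I α Φ : Type) [Fintype I] [DecidableEq I] [Fintype α] [Nonempty α]
  [Fintype Φ] (S : Φ → Set I) (X : Φ → (I → α) → ℝ) (m : Φ → ℝ),
  (∀ f ω ω', (∀ i ∈ S f, ω i = ω' i) → X f ω = X f ω') →
  (∀ f, {f' | f' ≠ f ∧ ¬ Disjoint (S f) (S f')}.ncard ≤ 7) →
  (∀ f, ∑ ω : I → α, Real.exp (8 * X f ω) ≤ Fintype.card (I → α) * Real.exp (8 * m f)) →
  ∑ ω : I → α, Real.exp (∑ f, X f ω) ≤ Fintype.card (I → α) * Real.exp (∑ f, m f)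

/-- BSUM: the same for sums over the blocks. -/
def BsumStmt : Prop := ∀ (V α : Type) [Fintype V] [DecidableEq V] [Fintype α] [Nonempty α]
  (σ : Equiv.Perm V) (L : ℕ) (B : BS σ L) (Y : V → (V → α) → ℝ) (m : V → ℝ), 1 ≤ L →
  (∀ v ω ω', (∀ v' ∈ nb B v, ω v' = ω' v') → Y v ω = Y v ω') →
  (∀ f, B.st f = f → ∑ ω : V → α, Real.exp (8 * ∑ v, {v | B.st v = f}.indicator (fun v => Y v ω) v) ≤
    Fintype.card (V → α) * Real.exp (8 * ∑ v, {v | B.st v = f}.indicator m v)) →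
  ∑ ω : V → α, Real.exp (∑ v, Y v ω) ≤ Fintype.card (V → α) * Real.exp (∑ v, m v)

/-- MARF: the probability that a node is flexible. -/
def MarfStmt : Prop := ∀ (V : Type) [Fintype V] [DecidableEq V] (σ : Equiv.Perm V) (a : ℕ)
  (B : BS σ (2 ^ a)), 20 ≤ a → Cyc σ (2 ^ a) →
  ∀ p : V × Lab, rr a * Fintype.card (V → Om a) ≤ ({ω | p ∈ FL B ω}.ncard : ℝ) ∧
    ({ω | p ∈ FL B ω}.ncard : ℝ) ≤ 8 / 7 * rr a * Fintype.card (V → Om a)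

/-- MARE: the probability that a node is the tail (head) node of an end. -/
def MareStmt : Prop := ∀ (V : Type) [Fintype V] [DecidableEq V] (σ : Equiv.Perm V) (a : ℕ)
  (B : BS σ (2 ^ a)), 20 ≤ a → ∃ e : V → ℝ, ∀ v, 0 ≤ e v ∧ e v ≤ rr a / 14 ∧
    ({ω | isEnd B ω v}.ncard : ℝ) = 4096 * e v * Fintype.card (V → Om a) ∧ ∀ i,
    ({ω | (v, i) ∈ ET B ω}.ncard : ℝ) = e v * Fintype.card (V → Om a) ∧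
    ({ω | (v, i) ∈ EH B ω}.ncard : ℝ) = e v * Fintype.card (V → Om a)

/-- CNB: few picks in a block. -/
def CnbStmt : Prop := ∀ (V : Type) [Finite V] (σ : Equiv.Perm V) (a : ℕ) (B : BS σ (2 ^ a))
  (ω : V → Om a), 10 ≤ a → Cyc σ (2 ^ a) → ∀ f,
  {v | B.st v = f ∧ v ∈ pk B ω}.ncard ≤ 2048 ∧ {v | B.st v = f ∧ isEnd B ω v}.ncard ≤ 1

/-- CONL: lower tail for the flexible nodes. -/
def ConlStmt : Prop := ∀ (V : Type) [Fintype V] [DecidableEq V] (σ : Equiv.Perm V) (a : ℕ)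
  (B : BS σ (2 ^ a)) (b : V × Lab → ℝ), 20 ≤ a → Cyc σ (2 ^ a) → (∀ p, 0 ≤ b p ∧ b p ≤ 1) →
  ∑ ω : V → Om a, Real.exp (-(th * ∑ p, (FL B ω).indicator b p)) ≤
    Fintype.card (V → Om a) * Real.exp (-(th * (19 / 20 * rr a * ∑ p, b p)))

/-- CONU: upper tail for the flexible nodes. -/
def ConuStmt : Prop := ∀ (V : Type) [Fintype V] [DecidableEq V] (σ : Equiv.Perm V) (a : ℕ)
  (B : BS σ (2 ^ a)) (b : V × Lab → ℝ), 20 ≤ a → Cyc σ (2 ^ a) → (∀ p, 0 ≤ b p ∧ b p ≤ 1) →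
  ∑ ω : V → Om a, Real.exp (th * ∑ p, (FL B ω).indicator b p) ≤
    Fintype.card (V → Om a) * Real.exp (th * (6 / 5 * rr a * ∑ p, b p))

/-- CONP: upper tail for the picks. -/
def ConpStmt : Prop := ∀ (V : Type) [Fintype V] [DecidableEq V] (σ : Equiv.Perm V) (a : ℕ)
  (B : BS σ (2 ^ a)) (S : Set (V × Lab)), 20 ≤ a → Cyc σ (2 ^ a) →
  (∑ ω : V → Om a, Real.exp (th * (S ∩ (FL B ω ∪ ET B ω)).ncard) ≤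
    Fintype.card (V → Om a) * Real.exp (th * (5 / 4 * rr a * S.ncard))) ∧
  (∑ ω : V → Om a, Real.exp (th * (S ∩ (FL B ω ∪ EH B ω)).ncard) ≤
    Fintype.card (V → Om a) * Real.exp (th * (5 / 4 * rr a * S.ncard)))

/-- CONE: the balance of the ends. -/
def ConeStmt : Prop := ∀ (V : Type) [Fintype V] [DecidableEq V] (σ : Equiv.Perm V) (a : ℕ)
  (B : BS σ (2 ^ a)) (S S' : Set (V × Lab)), 20 ≤ a → Cyc σ (2 ^ a) →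
  (∑ ω : V → Om a, Real.exp (th * ((ET B ω ∩ S).ncard - (EH B ω ∩ S').ncard)) ≤
    Fintype.card (V → Om a) * Real.exp (th * (rr a / 12 * (S \ S').ncard +
      rr a / 100 * (part S + (S' \ S).ncard)))) ∧
  (∑ ω : V → Om a, Real.exp (th * ((EH B ω ∩ S).ncard - (ET B ω ∩ S').ncard)) ≤
    Fintype.card (V → Om a) * Real.exp (th * (rr a / 12 * (S \ S').ncard +
      rr a / 100 * (part S + (S' \ S).ncard))))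

/-- DEV: deviations of the numbers of flexible nodes and of picks. -/
def DevStmt : Prop := ∀ (V : Type) [Fintype V] [DecidableEq V] (σ : Equiv.Perm V) (a : ℕ)
  (B : BS σ (2 ^ a)) (S : Set (V × Lab)) (x : ℝ), 20 ≤ a → Cyc σ (2 ^ a) → 0 ≤ x →
  ({ω | ((S ∩ FL B ω).ncard : ℝ) + x < 19 / 20 * rr a * S.ncard}.ncard : ℝ) ≤
    Real.exp (-(th * x)) * Fintype.card (V → Om a) ∧
  ({ω | 5 / 4 * rr a * S.ncard + x < ((S ∩ (FL B ω ∪ ET B ω)).ncard : ℝ)}.ncard : ℝ) ≤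
    Real.exp (-(th * x)) * Fintype.card (V → Om a) ∧
  ({ω | 5 / 4 * rr a * S.ncard + x < ((S ∩ (FL B ω ∪ EH B ω)).ncard : ℝ)}.ncard : ℝ) ≤
    Real.exp (-(th * x)) * Fintype.card (V → Om a)

/-- NCP: a fingerprint is bad with small probability. -/
def NcpStmt : Prop := ∀ (V : Type) [Fintype V] [DecidableEq V] (σ : Equiv.Perm V) (a : ℕ)
  (B : BS σ (2 ^ a)) (Q : Set (V × V)) (δ : Lab) (k0 : ℕ) (β : ℝ) (T0 T : Set (V × Lab)),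
  20 ≤ a → Cyc σ (2 ^ a) → 1 ≤ k0 → (∀ x, (out Q x).ncard ≤ k0) → 0 ≤ β →
  ({ω | ¬ NC Q δ k0 (rr a) β (FL B ω) (ET B ω) (EH B ω) T0 T}.ncard : ℝ) ≤
    6 * Real.exp (-(th * (β * T.ncard))) * Fintype.card (V → Om a) ∧
  ({ω | ¬ NC Q δ k0 (rr a) β (FL B ω) (EH B ω) (ET B ω) T0 T}.ncard : ℝ) ≤
    6 * Real.exp (-(th * (β * T.ncard))) * Fintype.card (V → Om a)

/-! ### D: local lemma -/

/-- CNT: the number of connected sets. -/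
def CntStmt : Prop := ∀ (ν : Type) [Fintype ν] [DecidableEq ν] (G : ν → ν → Prop) (Δ : ℕ), 1 ≤ Δ →
  (∀ x y, G x y → G y x) → (∀ x, {y | G x y}.ncard ≤ Δ) → ∀ (t : ν) (n : ℕ),
  {T : Finset ν | Bld G T ∧ t ∈ T ∧ T.card = n}.ncard ≤ Δ ^ (2 * n)

/-- BLL: local lemma with events indexed by connected sets. -/
def BllStmt : Prop := ∀ (I α ν J : Type) [Fintype I] [DecidableEq I] [Fintype α] [Nonempty α]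
  [Fintype ν] [DecidableEq ν] [Fintype J] (G : ν → ν → Prop) (sc : ν → Set I)
  (A : Finset ν → Set (I → α)) (sj : J → Set I) (Aj : J → Set (I → α)) (Δ M1 M2 : ℕ) (p : ℝ),
  1 ≤ Δ → 1 ≤ M1 → 1 ≤ M2 → (∀ x y, G x y → G y x) → (∀ x, {y | G x y}.ncard ≤ Δ) →
  (∀ t, (sc t).ncard ≤ M1) → (∀ i, {t | i ∈ sc t}.ncard ≤ M2) →
  (∀ j, (sj j).ncard ≤ M1) → (∀ i, {j | i ∈ sj j}.ncard ≤ M2) →
  (∀ T ω ω', (∀ t ∈ T, ∀ i ∈ sc t, ω i = ω' i) → ω ∈ A T → ω' ∈ A T) →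
  (∀ j ω ω', (∀ i ∈ sj j, ω i = ω' i) → ω ∈ Aj j → ω' ∈ Aj j) →
  0 ≤ p → (∀ T, Bld G T → ((A T).ncard : ℝ) ≤ p ^ T.card * Fintype.card (I → α)) →
  (∀ j, ((Aj j).ncard : ℝ) ≤ p * Fintype.card (I → α)) →
  64 * (M1 : ℝ) * M2 * Δ ^ 2 * p ≤ 1 →
  ∃ ω, (∀ T, Bld G T → ω ∉ A T) ∧ ∀ j, ω ∉ Aj j

/-- ADD: the conditions for connected fingerprints imply those for all fingerprints. -/
def AddStmt : Prop := ∀ (V : Type) [Fintype V] [DecidableEq V] (Q : Set (V × V)) (δ : Lab)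
  (k0 : ℕ) (r β : ℝ) (L Et Eh : Set (V × Lab)), (δ = 1 ∨ δ = -1) → 1 ≤ k0 →
  (∀ x, k0 ≤ 2 * (out Q x).ncard) →
  (∀ T : Finset (V × Lab), Bld (gam Q) T → ∀ T0 : Set (V × Lab), T0 ⊆ T →
    NC Q δ k0 r β L Et Eh T0 T) →
  ∀ T0 T : Set (V × Lab), T0 ⊆ T → NC Q δ k0 r β L Et Eh T0 T

/-- SUP: the conditions for `T0 ⊆ T` depend only on the data near `T`. -/
def SupStmt : Prop := ∀ (V : Type) [Fintype V] [DecidableEq V] (Q : Set (V × V)) (δ : Lab)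
  (k0 : ℕ) (r β : ℝ) (L Et Eh L' Et' Eh' T0 T : Set (V × Lab)), (δ = 1 ∨ δ = -1) → 1 ≤ k0 →
  (∀ x, k0 ≤ 2 * (out Q x).ncard) → T0 ⊆ T →
  (∀ p ∈ T, ∀ v ∈ rho Q p.1, ∀ i, ((v, i) ∈ L ↔ (v, i) ∈ L') ∧ ((v, i) ∈ Et ↔ (v, i) ∈ Et') ∧
    ((v, i) ∈ Eh ↔ (v, i) ∈ Eh')) →
  NC Q δ k0 r β L Et Eh T0 T → NC Q δ k0 r β L' Et' Eh' T0 T

/-- RHO: sizes of the neighbourhoods `rho`. -/
def RhoStmt : Prop := ∀ (V : Type) [Finite V] (Q : Set (V × V)) (k : ℕ), 1 ≤ k →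
  (∀ x, (out Q x).ncard ≤ k ∧ (inn Q x).ncard ≤ k) →
  (∀ x, (rho Q x).ncard ≤ 2 * k ^ 2) ∧ (∀ v, {x | v ∈ rho Q x}.ncard ≤ 2 * k ^ 2) ∧
  ∀ p, {p' | gam Q p p'}.ncard ≤ 2 ^ 14 * k ^ 4

/-- BPK: few classes of a block of classes pick `v`. -/
def BpkStmt : Prop := ∀ (V : Type) [Fintype V] [DecidableEq V] (a l : ℕ) (C : Finset ℕ)
  (σ : ℕ → Equiv.Perm V) (B : (c : ℕ) → BS (σ c) (2 ^ a)) (y : ℕ → V), 20 ≤ a →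
  C.card ≤ 2 ^ (a + l - 6) → (∀ c, Cyc (σ c) (2 ^ a)) →
  ({ω : {c // c ∈ C} × V → Om a | 2 ^ (l + 4) <
      {c : {c // c ∈ C} | y c ∈ pk (B c) (fun v => ω (c, v))}.ncard}.ncard : ℝ) ≤
    Real.exp (-(15 * (2 : ℝ) ^ l)) * Fintype.card ({c // c ∈ C} × V → Om a)

/-- LIFT: events of one class in the product of all classes. -/
def LiftStmt : Prop := ∀ (V Γ α : Type) [Fintype V] [DecidableEq V] [Fintype Γ] [DecidableEq Γ]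
  [Fintype α] (c : Γ) (A : Set (V → α)) (p : ℝ), (A.ncard : ℝ) ≤ p * Fintype.card (V → α) →
  ({ω : Γ × V → α | (fun v => ω (c, v)) ∈ A}.ncard : ℝ) ≤ p * Fintype.card (Γ × V → α)

/-- SMN: the numbers of the local lemma. -/
def SmnStmt : Prop := ∀ k l : ℕ, 1 ≤ k → 17 * (k : ℝ) ^ 2 ≤ Real.exp ((2 : ℝ) ^ l) →
  64 * ((k ^ 3 : ℕ) : ℝ) * (2 ^ 13 * k ^ 3 : ℕ) * (2 ^ 14 * k ^ 4 : ℕ) ^ 2 *
    Real.exp (-(12 * (2 : ℝ) ^ l)) ≤ 1 ∧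
  2 * (6 * Real.exp (-(th * (2 ^ 24 * (2 : ℝ) ^ l)))) ≤ Real.exp (-(12 * (2 : ℝ) ^ l)) ∧
  2 + Real.log (2 * k) ≤ (2 : ℝ) ^ l

/-- SMP: good samples for a block `C` of classes. -/
def SmpStmt : Prop := ∀ (V : Type) [Fintype V] [DecidableEq V] (k l a : ℕ) (C : Finset ℕ)
  (σ : ℕ → Equiv.Perm V) (B : (c : ℕ) → BS (σ c) (2 ^ a)) (R : Set (V × V)) (Zp Zm : Set V)
  (k0 : ℕ) (ζ : ℝ), 17 * (k : ℝ) ^ 2 ≤ Real.exp ((2 : ℝ) ^ l) → 20 ≤ a → 2 ^ (a + l + 10) ≤ k →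
  C.card ≤ 2 ^ (a + l - 6) → (∀ c, Cyc (σ c) (2 ^ a)) → 1 ≤ k0 → k0 ≤ k →
  (∀ x, k0 ≤ 2 * (out R x).ncard ∧ (out R x).ncard ≤ k0 ∧ k0 ≤ 2 * (inn R x).ncard ∧
    (inn R x).ncard ≤ k0) →
  (∀ c ∈ C, ∀ x, ζ ≤ ({v | (x, σ c v) ∈ R ∧ v ∈ Zp}.ncard : ℝ) ∧
    ζ ≤ ({v | (v, x) ∈ R ∧ σ c v ∈ Zm}.ncard : ℝ)) →
  2 ^ 27 * (2 : ℝ) ^ l ≤ rr a * ζ →
  ∃ ω : ℕ → V → Om a, (∀ c ∈ C, GoodC (B c) (ω c) R Zp Zm k0 (2 ^ 24 * 2 ^ l) (9 / 5 * rr a * ζ)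
    (4 * k0 * rr a)) ∧
  ∀ v, {c | c ∈ C ∧ v ∈ pk (B c) (ω c)}.ncard ≤ 2 ^ (l + 4) ∧
    {c | c ∈ C ∧ (σ c)⁻¹ v ∈ pk (B c) (ω c)}.ncard ≤ 2 ^ (l + 4)

/-! ### E: blocks of classes, steps -/

/-- BLK: one block `C` of classes. -/
def BlkStmt : Prop := ∀ (V : Type) [Fintype V] [DecidableEq V] (k l a : ℕ) (C : Finset ℕ)
  (σ : ℕ → Equiv.Perm V) (R : Set (V × V)) (K : ℕ → Set (V × V)) (Zp Zm : Set V)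
  (k0 w : ℕ) (ζ : ℝ), 17 * (k : ℝ) ^ 2 ≤ Real.exp ((2 : ℝ) ^ l) → 20 ≤ a → 2 ^ (a + l + 10) ≤ k →
  C.card ≤ 2 ^ (a + l - 6) → (∀ c, Cyc (σ c) (2 ^ a)) → (∀ c, ∀ p ∈ K c, σ c p.1 = p.2) →
  1 ≤ k0 → k0 ≤ k → 20 * w ≤ k0 →
  (∀ x, k0 ≤ (out R x).ncard + w ∧ (out R x).ncard ≤ k0 ∧ k0 ≤ (inn R x).ncard + w ∧
    (inn R x).ncard ≤ k0) →
  (∀ c ∈ C, ∀ x, ζ ≤ ({v | (x, σ c v) ∈ R ∧ v ∈ Zp}.ncard : ℝ) ∧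
    ζ ≤ ({v | (v, x) ∈ R ∧ σ c v ∈ Zm}.ncard : ℝ)) →
  2 ^ 27 * (2 : ℝ) ^ l ≤ rr a * ζ →
  HC k0 w (2 ^ (l + 4)) (2 ^ l) (rr a) (2 ^ 24 * 2 ^ l) (9 / 5 * rr a * ζ - 2 ^ (l + 4))
    (4 * k0 * rr a) →
  ∃ K' : ℕ → Set (V × V), (∀ c ∈ C, PI (K' c) ∧ CW (K' c) (2 ^ (a + 1)) ∧ K' c ⊆ K c ∪ R ∧
    (∀ v, v ∉ Zp → v ∈ dom (K c) → v ∈ dom (K' c)) ∧
    (∀ v, v ∉ Zm → v ∈ ran (K c) → v ∈ ran (K' c))) ∧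
  (∀ c ∈ C, ∀ d ∈ C, c ≠ d → Disjoint (K' c \ K c) (K' d \ K d)) ∧
  ∀ v, {c | c ∈ C ∧ v ∈ dom (K c) ∧ v ∉ dom (K' c)}.ncard ≤ 2 ^ (l + 4) ∧
    {c | c ∈ C ∧ v ∈ ran (K c) ∧ v ∉ ran (K' c)}.ncard ≤ 2 ^ (l + 4)

/-- ZSL: the eligible set of a block. -/
def ZslStmt : Prop := ∀ (V J : Type) [Finite V] [Finite J] (N : J → Set V) (U : Set V)
  (k l h : ℕ), 17 * (k : ℝ) ^ 2 ≤ Real.exp ((2 : ℝ) ^ l) → 2 ^ (h + l + 10) ≤ k →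
  (∀ j, (N j).ncard ≤ k) → (∀ z, {j | z ∈ N j}.ncard ≤ k ^ 2) →
  ∃ Z ⊆ U, ∀ j, (2 : ℝ) ^ h * (N j ∩ Z).ncard ≤ 2 * k ∧
    (k ≤ 2 * (N j ∩ U).ncard → (k : ℝ) ≤ 2 ^ (h + 2) * (N j ∩ Z).ncard)

/-- STN: the numbers of a step. `W' = W + 2 ^ (2 l + 64)`, `k0 = k - q + W'`, `ζ = k / 2 ^ (h+2)`. -/
def StnStmt : Prop := ∀ k l a h q W : ℕ, NumS k l a h q W →
  20 ≤ a ∧ 2 ^ (a + l + 10) ≤ k ∧ 2 ^ (h + l + 10) ≤ k ∧ 1 ≤ k - q + (W + 2 ^ (2 * l + 64)) ∧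
  k - q + (W + 2 ^ (2 * l + 64)) ≤ k ∧
  20 * (W + 2 ^ (2 * l + 64)) ≤ k - q + (W + 2 ^ (2 * l + 64)) ∧
  2 ^ 27 * (2 : ℝ) ^ l ≤ rr a * (k / 2 ^ (h + 2)) ∧
  HC (k - q + (W + 2 ^ (2 * l + 64))) (W + 2 ^ (2 * l + 64)) (2 ^ (l + 4)) (2 ^ l) (rr a)
    (2 ^ 24 * 2 ^ l) (9 / 5 * rr a * (k / 2 ^ (h + 2)) - 2 ^ (l + 4))
    (4 * (k - q + (W + 2 ^ (2 * l + 64)) : ℕ) * rr a) ∧
  16 * (q / 2 ^ (a + l - 6)) ≤ 2 ^ (l + 60) * 2 ^ h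

/-- DEG: degrees of what is left. -/
def DegStmt : Prop := ∀ (V : Type) [Finite V] (E : Set (V × V)) (k q : ℕ) (K : ℕ → Set (V × V)),
  Reg E k → (∀ c < q, K c ⊆ E ∧ PI (K c)) → (∀ c < q, ∀ d < q, c ≠ d → Disjoint (K c) (K d)) →
  ∀ v, (out {p | p ∈ E ∧ ∀ c < q, p ∉ K c} v).ncard + q = k + {c | c < q ∧ v ∉ dom (K c)}.ncard ∧
    (inn {p | p ∈ E ∧ ∀ c < q, p ∉ K c} v).ncard + q = k + {c | c < q ∧ v ∉ ran (K c)}.ncard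

/-- ZST: the eligible set of a block of classes, with counters. -/
def ZstStmt : Prop := ∀ (V : Type) [Fintype V] (E R : Set (V × V)) (k l h q n : ℕ)
  (σ : ℕ → Equiv.Perm V) (cp : V → ℕ), 17 * (k : ℝ) ^ 2 ≤ Real.exp ((2 : ℝ) ^ l) →
  2 ^ (h + l + 10) ≤ k → 8 * q ≤ k → Reg E k → R ⊆ E → (∀ x, 7 * k ≤ 8 * (out R x).ncard) →
  16 * n ≤ 2 ^ (l + 60) * 2 ^ h →
  (∀ c < q, ∀ x, (2 : ℝ) ^ h * ∑ v, {v | (x, σ c v) ∈ E}.indicator (fun v => (cp v : ℝ)) v ≤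
      n * (2 * k)) →
  ∃ Z : Set V, (∀ v ∈ Z, cp v < 2 ^ (l + 60)) ∧ ∀ c < q, ∀ x,
    (k : ℝ) / 2 ^ (h + 2) ≤ ({v | (x, σ c v) ∈ R ∧ v ∈ Z}.ncard : ℝ) ∧
    (2 : ℝ) ^ h * ({v | (x, σ c v) ∈ E ∧ v ∈ Z}.ncard : ℝ) ≤ 2 * k

/-- STP1: one block inside a step, with counters. -/
def Stp1Stmt : Prop := ∀ (V : Type) [Fintype V] [DecidableEq V] (E : Set (V × V))
  (k l a h q W n : ℕ) (σ : ℕ → Equiv.Perm V) (K K1 : ℕ → Set (V × V)) (cp cm : V → ℕ),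
  NumS k l a h q W → Reg E k → (∀ c, Cyc (σ c) (2 ^ a)) → (∀ c, ∀ p ∈ K c, σ c p.1 = p.2) →
  (n + 1) * 2 ^ (a + l - 6) ≤ q →
  (∀ c < q, K1 c ⊆ E ∧ PI (K1 c)) → (∀ c < n * 2 ^ (a + l - 6), CW (K1 c) (2 ^ (a + 1))) →
  (∀ c, n * 2 ^ (a + l - 6) ≤ c → K1 c = K c) →
  (∀ c < q, ∀ d < q, c ≠ d → Disjoint (K1 c) (K1 d)) →
  (∀ v, {c | c < q ∧ v ∉ dom (K1 c)}.ncard ≤ W + 2 ^ (l + 4) * cp v ∧
    {c | c < q ∧ v ∉ ran (K1 c)}.ncard ≤ W + 2 ^ (l + 4) * cm v) →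
  (∀ v, cp v ≤ 2 ^ (l + 60) ∧ cm v ≤ 2 ^ (l + 60)) →
  (∀ c < q, ∀ x, (2 : ℝ) ^ h * ∑ v, {v | (x, σ c v) ∈ E}.indicator (fun v => (cp v : ℝ)) v ≤
      n * (2 * k) ∧
    (2 : ℝ) ^ h * ∑ v, {v | ((σ c)⁻¹ v, x) ∈ E}.indicator (fun v => (cm v : ℝ)) v ≤ n * (2 * k)) →
  ∃ (K2 : ℕ → Set (V × V)) (cp' cm' : V → ℕ),
  (∀ c < q, K2 c ⊆ E ∧ PI (K2 c)) ∧ (∀ c < (n + 1) * 2 ^ (a + l - 6), CW (K2 c) (2 ^ (a + 1))) ∧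
  (∀ c, (n + 1) * 2 ^ (a + l - 6) ≤ c → K2 c = K c) ∧
  (∀ c < q, ∀ d < q, c ≠ d → Disjoint (K2 c) (K2 d)) ∧
  (∀ v, {c | c < q ∧ v ∉ dom (K2 c)}.ncard ≤ W + 2 ^ (l + 4) * cp' v ∧
    {c | c < q ∧ v ∉ ran (K2 c)}.ncard ≤ W + 2 ^ (l + 4) * cm' v) ∧
  (∀ v, cp' v ≤ 2 ^ (l + 60) ∧ cm' v ≤ 2 ^ (l + 60)) ∧
  ∀ c < q, ∀ x, (2 : ℝ) ^ h * ∑ v, {v | (x, σ c v) ∈ E}.indicator (fun v => (cp' v : ℝ)) v ≤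
      (n + 1 : ℕ) * (2 * k) ∧
    (2 : ℝ) ^ h * ∑ v, {v | ((σ c)⁻¹ v, x) ∈ E}.indicator (fun v => (cm' v : ℝ)) v ≤
      (n + 1 : ℕ) * (2 * k)

/-- STP: a step for classes contained in permutations with long cycles. -/
def StpStmt : Prop := ∀ (V : Type) [Finite V] (E : Set (V × V)) (k l a h q W : ℕ)
  (σ : ℕ → Equiv.Perm V) (K : ℕ → Set (V × V)), NumS k l a h q W → Reg E k →
  (∀ c, Cyc (σ c) (2 ^ a)) → (∀ c, ∀ p ∈ K c, σ c p.1 = p.2) → Stt E q (2 ^ a) W K →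
  ∃ K', Stt E q (2 ^ (a + 1)) (W + 2 ^ (2 * l + 64)) K'

/-- CPY: the same for arbitrary classes (by means of `2 ^ a` copies). -/
def CpyStmt : Prop := ∀ (V : Type) [Finite V] (E : Set (V × V)) (k l a h q W : ℕ)
  (K : ℕ → Set (V × V)), NumS k l a h q W → Reg E k → Stt E q (2 ^ a) W K →
  ∃ K', Stt E q (2 ^ (a + 1)) (W + 2 ^ (2 * l + 64)) K'

/-! ### F: the round -/

/-- P1M: the numbers of Phase I. -/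
def P1mStmt : Prop := ∀ k l s I f : ℕ, Par k l s I f → ∃ L Up : ℕ → ℝ,
  2 * (2 : ℝ) ^ s ≤ L 0 + 1 ∧ L I + (2 : ℝ) ^ (s + I) ≤ k ∧ (k : ℝ) ≤ Up I ∧
  Up 0 ≤ 17 * (2 : ℝ) ^ s ∧ ∀ i < I, ((2 : ℝ) ^ l ≤ L (i + 1) ∧
    L i + 2 ^ i ≤ L (i + 1) / 2 - √((2 : ℝ) ^ l * L (i + 1)) ∧ 0 ≤ Up (i + 1) ∧
    Up (i + 1) / 2 + √((2 : ℝ) ^ l * Up (i + 1)) ≤ Up i)

/-- P1: Phase I. -/
def P1Stmt : Prop := ∀ k l s I f : ℕ, Par k l s I f →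
  ∀ (V : Type) [Finite V] (E : Set (V × V)), Reg E k →
  ∃ K : ℕ → Set (V × V), Stt E (2 ^ (s + I)) (2 ^ s) (2 ^ s) K

/-- ITE: all steps. -/
def IteStmt : Prop := ∀ k l s I f : ℕ, Par k l s I f →
  ∀ (V : Type) [Finite V] (E : Set (V × V)), Reg E k →
  ∃ K : ℕ → Set (V × V), Stt E (2 ^ (s + I)) (2 ^ (s + f + 1)) (2 ^ (s + 1)) K

/-- FCT: the final cut in groups of `2 ^ (b - 3)` classes. -/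
def FctStmt : Prop := ∀ (V : Type) [Finite V] (E : Set (V × V)) (q b W n : ℕ)
  (K : ℕ → Set (V × V)), 3 ≤ b → Stt E q (2 ^ b) W K → q ≤ n * 2 ^ (b - 3) → Round E q (W + n)

/-- RND: the round. -/
def RndStmt : Prop := ∀ k l s I f : ℕ, Par k l s I f →
  ∀ (V : Type) [Finite V] (E : Set (V × V)), Reg E k → Round E (2 ^ (s + I)) (2 ^ (s + 2))

/-- PAR: the parameters exist for large `k`. -/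
def ParStmt : Prop := ∃ k₀ : ℕ, ∀ k ≥ k₀, ∃ l s I f : ℕ, Par k l s I f

/-- ANA: solution of the recursion. -/
def AnaStmt : Prop := ∀ (Q : ℕ → ℕ → Prop) (k₀ : ℕ) (c : ℝ), (∀ k, Q k (2 * k)) →
  (∀ k ≥ k₀, ∃ q err : ℕ, k ≤ 16 * q ∧ q ≤ k ∧ (err : ℝ) ≤ c * (Real.log k + 3) ^ 3 ∧
    ∀ n, Q (k - q + err) n → Q k (q + n)) →
  ∃ C : ℝ, ∀ k ≥ 1, ∃ n : ℕ, Q k n ∧ (n : ℝ) ≤ k + C * (1 + Real.log k) ^ 4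

/-- FIN: the theorem. -/
def FinStmt : Prop := ∃ C : ℝ, ∀ (V : Type) [Finite V] (G : SimpleGraph V) (Δ : ℕ), 1 ≤ Δ →
  (∀ v, (G.neighborSet v).ncard ≤ Δ) → ∃ n : ℕ, Helper14_LA.CoveredBy G n ∧
  (n : ℝ) ≤ Δ / 2 + C * (1 + Real.log Δ) ^ 4

end Pool.Agent.LAP
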